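import Pool.Agent.W186.AI.Spec

/-! AI-TOR: the identity on the torus. -/

set_option autoImplicit false

namespace Pool.Agent.W863.AI.TOR

open Complex Filter Topology Metric Set
open scoped Real
open Pool.Agent.W186.AI

theorem poly_diff {m : ℕ} (P : MvPolynomial (Fin m) ℂ) (f : ℂ → Fin m → ℂ) (s : Set ℂ)
    (hf : ∀ i, DifferentiableOn ℂ (fun w => f w i) s) :
    DifferentiableOn ℂ (fun w => MvPolynomial.eval (f w) P) s := by
  induction P using MvPolynomial.induction_on with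
  | C a => simp only [MvPolynomial.eval_C]; exact differentiableOn_const _
  | add p q hp hq => simp only [map_add]; exact hp.add hq
  | mul_X p i hp => simp only [map_mul, MvPolynomial.eval_X]; exact hp.mul (hf i)

theorem poly_bd {m : ℕ} (P : MvPolynomial (Fin m) ℂ) : ∃ B : ℝ, 0 ≤ B ∧
    ∀ x : Fin m → ℂ, (∀ i, ‖x i‖ ≤ 1) → ‖MvPolynomial.eval x P‖ ≤ B := by
  induction P using MvPolynomial.induction_on with
  | C a => exact ⟨‖a‖, norm_nonneg _, fun x _ => by rw [MvPolynomial.eval_C]⟩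
  | add p q hp hq =>
    obtain ⟨B1, h1, h2⟩ := hp
    obtain ⟨B2, h3, h4⟩ := hq
    refine ⟨B1 + B2, by positivity, fun x hx => ?_⟩
    rw [map_add]
    exact (norm_add_le _ _).trans (add_le_add (h2 x hx) (h4 x hx))
  | mul_X p i hp =>
    obtain ⟨B1, h1, h2⟩ := hp
    refine ⟨B1, h1, fun x hx => ?_⟩
    rw [map_mul, MvPolynomial.eval_X, norm_mul]
    calc ‖MvPolynomial.eval x p‖ * ‖x i‖ ≤ B1 * 1 :=
          mul_le_mul (h2 x hx) (hx i) (norm_nonneg _) h1
      _ = B1 := mul_one _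

theorem poly_lip {m : ℕ} (P : MvPolynomial (Fin m) ℂ) : ∃ L : ℝ, 0 ≤ L ∧
    ∀ (x y : Fin m → ℂ) (ε : ℝ), (∀ i, ‖x i‖ ≤ 1) → (∀ i, ‖y i‖ ≤ 1) → 0 ≤ ε →
    (∀ i, ‖x i - y i‖ ≤ ε) → ‖MvPolynomial.eval x P - MvPolynomial.eval y P‖ ≤ L * ε := by
  induction P using MvPolynomial.induction_on with
  | C a =>
    refine ⟨0, le_rfl, fun x y ε _ _ _ _ => ?_⟩
    rw [MvPolynomial.eval_C, MvPolynomial.eval_C, sub_self, norm_zero, zero_mul]
  | add p q hp hq =>
    obtain ⟨L1, h1, h2⟩ := hp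
    obtain ⟨L2, h3, h4⟩ := hq
    refine ⟨L1 + L2, by positivity, fun x y ε hx hy hε hxy => ?_⟩
    rw [map_add, map_add, add_sub_add_comm, add_mul]
    exact (norm_add_le _ _).trans (add_le_add (h2 x y ε hx hy hε hxy) (h4 x y ε hx hy hε hxy))
  | mul_X p i hp =>
    obtain ⟨L1, h1, h2⟩ := hp
    obtain ⟨B, hB, hB'⟩ := poly_bd p
    refine ⟨L1 + B, by positivity, fun x y ε hx hy hε hxy => ?_⟩
    rw [map_mul, map_mul, MvPolynomial.eval_X, MvPolynomial.eval_X]
    have e : MvPolynomial.eval x p * x i - MvPolynomial.eval y p * y i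
        = (MvPolynomial.eval x p - MvPolynomial.eval y p) * x i
          + MvPolynomial.eval y p * (x i - y i) := by ring
    rw [e]
    refine (norm_add_le _ _).trans ?_
    rw [norm_mul, norm_mul, add_mul]
    refine add_le_add ?_ ?_
    · calc ‖MvPolynomial.eval x p - MvPolynomial.eval y p‖ * ‖x i‖ ≤ (L1 * ε) * 1 :=
            mul_le_mul (h2 x y ε hx hy hε hxy) (hx i) (norm_nonneg _) (by positivity)
        _ = L1 * ε := mul_one _
    · exact mul_le_mul (hB' y hy) (hxy i) (norm_nonneg _) hB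

theorem ph_norm (Y : ℝ) (p : Nat.Primes) : ‖ph Y p‖ = 1 := by
  unfold ph
  rw [Complex.norm_natCast_cpow_of_pos p.2.pos]
  simp

theorem good_mono {M M' : ℝ} {f : ℂ → ℂ} (h : M ≤ M') (hf : Good M f) : Good M' f := by
  refine ⟨fun t ht => (hf.1 t ht).trans h, fun t ht u hu => (hf.2 t ht u hu).trans ?_⟩
  exact mul_le_mul_of_nonneg_right h (norm_nonneg _)

theorem good_add {M y : ℝ} {f : ℂ → ℂ} (hy : 0 ≤ y) (hf : Good M f) :
    Good (y + M) (fun t => (y : ℂ) + f t) := by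
  refine ⟨fun t ht => ?_, fun t ht u hu => ?_⟩
  · refine (norm_add_le _ _).trans ?_
    rw [Complex.norm_real, Real.norm_of_nonneg hy]
    exact add_le_add le_rfl (hf.1 t ht)
  · have : (y : ℂ) + f t - ((y : ℂ) + f u) = f t - f u := by ring
    show ‖(y : ℂ) + f t - ((y : ℂ) + f u)‖ ≤ _
    rw [this]
    refine (hf.2 t ht u hu).trans ?_
    exact mul_le_mul_of_nonneg_right (by linarith) (norm_nonneg _)

theorem good_neg {M : ℝ} {f : ℂ → ℂ} (hf : Good M f) : Good M (fun t => - f t) := by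
  refine ⟨fun t ht => ?_, fun t ht u hu => ?_⟩
  · show ‖- f t‖ ≤ M
    rw [norm_neg]; exact hf.1 t ht
  · show ‖- f t - - f u‖ ≤ _
    have : - f t - - f u = -(f t - f u) := by ring
    rw [this, norm_neg]; exact hf.2 t ht u hu

theorem main (hf : S_FPL) (hl : S_LAM) (hH : S_HGD) (hS : S_SGD) (hc : S_CPX) (hk : S_KRO)
    (hL : S_LEA) (ht : S_TTH) : S_TOR := by
  intro τ hτ m n P hP
  obtain ⟨x0, hx0, hcx⟩ := hc τ hτ m n P hP
  obtain ⟨C, hC1, hG, _, hHS⟩ := hH
  obtain ⟨x, hxd⟩ : ∃ x : ℝ, x = x0 + 1 := ⟨_, rfl⟩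
  have hx : 10 ≤ x := by linarith
  obtain ⟨σ, hσd⟩ : ∃ σ : ℝ, σ = 1 / 2 + x := ⟨_, rfl⟩
  have hσ : 10 ≤ σ := by linarith
  have hy : ∀ i, 0 ≤ yy (n i) := by
    intro i
    unfold yy
    have := Real.pi_pos
    positivity
  obtain ⟨s, hsd⟩ : ∃ s : ℝ, s = ∑ i, yy (n i) := ⟨_, rfl⟩
  have hs : ∀ i, yy (n i) ≤ s := by
    intro i
    rw [hsd]
    exact Finset.single_le_sum (f := fun i => yy (n i)) (fun i _ => hy i) (Finset.mem_univ i)
  have hs0 : 0 ≤ s := by
    rw [hsd]; exact Finset.sum_nonneg fun i _ => hy i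
  obtain ⟨r, hrd⟩ : ∃ r : ℝ, r = 1 / (2 * (s + 1)) := ⟨_, rfl⟩
  have hr : 0 < r := by rw [hrd]; positivity
  have hrs : r * (2 * (s + 1)) = 1 := by
    rw [hrd]; field_simp
  have hri : ∀ i, r * (2 * (yy (n i) + 1)) ≤ 1 := by
    intro i
    rw [← hrs]
    exact mul_le_mul_of_nonneg_left (by linarith [hs i]) hr.le
  have hT := fun i => ht σ (yy (n i)) r hσ (hy i) hr (hri i)
  obtain ⟨B, hB, hB'⟩ := poly_bd P
  obtain ⟨L, hL0, hL'⟩ := poly_lip P
  refine ⟨σ, r, hσ, hr, hri, ?_⟩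
  refine hL (Nat.Primes → ℂ) {ω | ∀ p, ‖ω p‖ = 1} r B
    (fun w ω => MvPolynomial.eval (fun i => TT σ (yy (n i)) w ω) P) hr ?_ ?_ ?_ ?_
  · intro ω hω
    exact poly_diff P _ _ fun i => (hT i).2.1 ω (fun p => (hω p).le)
  · intro ω hω w hw
    refine hB' _ fun i => ?_
    have := ((hT i).1 ω (fun p => (hω p).le) w hw).1
    linarith
  · refine (MvPolynomial.continuous_eval P).comp_continuousOn ?_
    refine continuousOn_pi.2 fun i => ?_
    refine (hT i).2.2.1.mono ?_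
    rintro ⟨w, ω⟩ ⟨h1, h2⟩
    exact ⟨h1, fun p => (h2 p).le⟩
  · intro ω hω
    obtain ⟨Y, hY, hph⟩ := hk ω hω
    have hLa : Tendsto (fun k => ‖La ((x : ℂ) + I * ((Y k : ℝ) : ℂ))‖) atTop atTop :=
      (hl.2.2.1 x hx).comp hY
    have e1 : ∀ᶠ k in atTop, 1 ≤ Y k := hY.eventually_ge_atTop 1
    have e2 : ∀ᶠ k in atTop, 2 * (s + C) + 1 / r + 1 ≤ ‖La ((x : ℂ) + I * ((Y k : ℝ) : ℂ))‖ :=
      hLa.eventually_ge_atTop _
    obtain ⟨N, hN⟩ := eventually_atTop.1 (e1.and e2)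
    have hsh : Tendsto (fun k : ℕ => k + N) atTop atTop := tendsto_add_atTop_nat N
    have hNk : ∀ k : ℕ, 1 ≤ Y (k + N) ∧
        2 * (s + C) + 1 / r + 1 ≤ ‖La ((x : ℂ) + I * ((Y (k + N) : ℝ) : ℂ))‖ :=
      fun k => hN (k + N) (Nat.le_add_left _ _)
    have hpos : ∀ k : ℕ, 0 < ‖La ((x : ℂ) + I * ((Y (k + N) : ℝ) : ℂ))‖ := by
      intro k
      have h1 : 0 < 1 / r := by positivity
      linarith [(hNk k).2]
    have hne : ∀ k : ℕ, La ((x : ℂ) + I * ((Y (k + N) : ℝ) : ℂ)) ≠ 0 := fun k =>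
      norm_pos_iff.1 (hpos k)
    refine ⟨fun k => (La ((x : ℂ) + I * ((Y (k + N) : ℝ) : ℂ)))⁻¹, fun k => ph (Y (k + N)),
      ?_, ?_, ?_, ?_⟩
    · rw [tendsto_zero_iff_norm_tendsto_zero]
      simp only [norm_inv]
      exact tendsto_inv_atTop_zero.comp (hLa.comp hsh)
    · intro k
      exact ⟨inv_ne_zero (hne k), fun p => ph_norm _ p⟩
    · exact hph.comp hsh
    · intro j
      have hbound : ∀ k : ℕ, ‖MvPolynomial.eval (fun i => TT σ (yy (n i))
          (La ((x : ℂ) + I * ((Y (k + N) : ℝ) : ℂ)))⁻¹ (ph (Y (k + N)))) P /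
            ((La ((x : ℂ) + I * ((Y (k + N) : ℝ) : ℂ)))⁻¹) ^ j‖ ≤
          (L * C) * (‖La ((x : ℂ) + I * ((Y (k + N) : ℝ) : ℂ))‖ ^ j / Y (k + N)) := by
        intro k
        obtain ⟨hY1, hbig⟩ := hNk k
        have hY0 : 0 < Y (k + N) := by linarith
        obtain ⟨a, had⟩ : ∃ a : ℂ, a = (x : ℂ) + I * ((Y (k + N) : ℝ) : ℂ) := ⟨_, rfl⟩
        have hare : a.re = x := by rw [had]; simp
        rw [← had] at hbig ⊢
        have hLpos : 0 < ‖La a‖ := by rw [had]; exact hpos k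
        have hLne : La a ≠ 0 := norm_pos_iff.1 hLpos
        have hC0 : 0 < C := by linarith
        have hw1 : ‖(La a)⁻¹‖ * (2 * (s + C)) ≤ 1 := by
          rw [norm_inv, inv_mul_le_iff₀ hLpos, mul_one]
          have h1 : 0 < 1 / r := by positivity
          linarith
        have hw2 : (La a)⁻¹ ∈ ball (0 : ℂ) r := by
          rw [mem_ball_zero_iff, norm_inv, inv_lt_comm₀ hLpos hr, ← one_div]
          have h1 : 0 < s + C := by linarith
          linarith
        have hphK : ∀ p, ‖ph (Y (k + N)) p‖ ≤ 1 := fun p => (ph_norm _ p).le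
        have hM1 : 1 ≤ s + C := by linarith
        -- the two fixed points
        have hgS : ∀ i, Good (s + C) (fun t => ((yy (n i) : ℝ) : ℂ) + S σ (ph (Y (k + N))) t) := by
          intro i
          refine good_mono ?_ (good_add (hy i) ((hS σ hσ).1 _ hphK).1)
          linarith [hs i]
        have hgH : ∀ i, Good (s + C) (fun t => ((yy (n i) : ℝ) : ℂ) - Hh a t) := by
          intro i
          have h1 := good_add (hy i) (good_neg (hG a (by rw [hare]; exact hx)))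
          have h2 : (fun t => ((yy (n i) : ℝ) : ℂ) - Hh a t)
              = (fun t => ((yy (n i) : ℝ) : ℂ) + - Hh a t) := by
            funext t; ring
          rw [h2]
          exact good_mono (by linarith [hs i]) h1
        have hdiff : ∀ i, ‖TT σ (yy (n i)) (La a)⁻¹ (ph (Y (k + N)))
            - fp (fun t => ((yy (n i) : ℝ) : ℂ) - Hh a t) (La a)⁻¹‖ ≤ C / Y (k + N) := by
          intro i
          refine (hf (s + C) _ _ hM1 (hgS i) hw1).2.2.2.2 _ _ (hgH i) ?_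
          intro t ht'
          have h1 := hHS x (Y (k + N)) hx hY1 t ht'
          rw [← had, ← hσd] at h1
          have h2 : ((yy (n i) : ℝ) : ℂ) + S σ (ph (Y (k + N))) t
              - (((yy (n i) : ℝ) : ℂ) - Hh a t) = Hh a t + S σ (ph (Y (k + N))) t := by ring
          rw [h2]; exact h1
        have hz := hcx a (by rw [hare]; linarith)
        have hTb : ∀ i, ‖TT σ (yy (n i)) (La a)⁻¹ (ph (Y (k + N)))‖ ≤ 1 := by
          intro i
          have := ((hT i).1 _ hphK _ hw2).1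
          linarith
        have hFb : ∀ i, ‖fp (fun t => ((yy (n i) : ℝ) : ℂ) - Hh a t) (La a)⁻¹‖ ≤ 1 := by
          intro i
          have := (hf (s + C) _ _ hM1 (hgH i) hw1).1
          linarith
        have hfin := hL' _ _ (C / Y (k + N)) hTb hFb (by positivity) hdiff
        rw [hz, sub_zero] at hfin
        rw [norm_div, norm_pow, norm_inv, inv_pow, div_inv_eq_mul]
        calc _ ≤ (L * (C / Y (k + N))) * ‖La a‖ ^ j :=
              mul_le_mul_of_nonneg_right hfin (by positivity)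
          _ = (L * C) * (‖La a‖ ^ j / Y (k + N)) := by ring
      refine squeeze_zero_norm hbound ?_
      have h1 : Tendsto (fun k : ℕ => ‖La ((x : ℂ) + I * ((Y (k + N) : ℝ) : ℂ))‖ ^ j / Y (k + N))
          atTop (𝓝 0) := ((hl.2.2.2 x hx j).comp hY).comp hsh
      have h2 := h1.const_mul (L * C)
      rw [mul_zero] at h2
      exact h2

end Pool.Agent.W863.AI.TOR
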